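import Mathlib

/-! # Box proofs and locally consistent labellings (helper72)

A proof that no labelling of `U` satisfies all constraints: a list of sets of the form `B ∩ Z`, `B` a
box (`∏ u, B u`), `Z` a set that depends on few vertices; each set violates a constraint or is
contained in the union of few earlier sets. -/

open scoped Classical
open Finset

namespace Pool.Agent.Helper72.BX

/-- a system of locally consistent labellings of the sets of at most `l` vertices, local form -/
structure Sys (U Λ : Type) (l : ℕ) where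
  /-- `C S ρ`: the restriction of `ρ` to `S` is consistent -/
  C : Finset U → (U → Λ) → Prop
  loc : ∀ S ρ ρ', (∀ u ∈ S, ρ' u = ρ u) → C S ρ → C S ρ'
  empty : ∀ ρ, C ∅ ρ
  mono : ∀ S T ρ, S ⊆ T → C T ρ → C S ρ
  ext : ∀ S T ρ, S ⊆ T → T.card ≤ l → C S ρ → ∃ ρ', (∀ u ∈ S, ρ' u = ρ u) ∧ C T ρ'

variable {U Λ : Type} [Fintype U] [Fintype Λ]

/-- the vertices restricted by the box `X`, relative to the domains `D` -/
noncomputable def supp (D : U → Finset Λ) (X : U → Set Λ) : Finset U :=
  univ.filter fun u => ¬ ∀ a ∈ D u, a ∈ X u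

theorem mem_supp {D : U → Finset Λ} {X : U → Set Λ} {u : U} :
    u ∈ supp D X ↔ ¬ ∀ a ∈ D u, a ∈ X u := by
  simp [supp]

/-- the state of the adversary: `T` is fixed by `τ`, and the consistent extensions have their labels
in `D` -/
structure State {l : ℕ} (F : Sys U Λ l) (T : Finset U) (τ : U → Λ) (D : U → Finset Λ) : Prop where
  hT : F.C T τ
  hD : ∀ u ∈ T, D u = {τ u}
  hC : ∀ (S : Finset U) (ρ : U → Λ), F.C (T ∪ S) ρ → (∀ u ∈ T, ρ u = τ u) → ∀ u ∈ S, ρ u ∈ D u

/-- proofs with fan-in `k` and axioms on two vertices; line `i` is the intersection of the box `B i`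
with the set `Z i` -/
def Proof {l : ℕ} (F : Sys U Λ l) (k : ℕ) {s : ℕ} (B : Fin s → U → Set Λ)
    (Z : Fin s → Set (U → Λ)) : Prop :=
  ∀ i, (∃ S : Finset U, S.card ≤ 2 ∧ ∀ ρ, F.C S ρ → ¬ ((∀ u, ρ u ∈ B i u) ∧ ρ ∈ Z i)) ∨
    ∃ J : Finset (Fin s), J.card ≤ k ∧ (∀ j ∈ J, j < i) ∧
      ∀ ρ : U → Λ, (∀ u, ρ u ∈ B i u) → ρ ∈ Z i → ∃ j ∈ J, (∀ u, ρ u ∈ B j u) ∧ ρ ∈ Z j

/-- `Z i` depends on the at most `m` vertices in `N i` -/
def Small {U Λ : Type} (m : ℕ) {s : ℕ} (Z : Fin s → Set (U → Λ)) (N : Fin s → Finset U) : Prop :=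
  ∀ i, (N i).card ≤ m ∧ ∀ ρ ρ' : U → Λ, (∀ u ∈ N i, ρ u = ρ' u) → ρ ∈ Z i → ρ' ∈ Z i

variable {l : ℕ} {F : Sys U Λ l}

omit [Fintype U] [Fintype Λ] in
theorem State.nonempty {T : Finset U} {τ : U → Λ} {D : U → Finset Λ} (h : State F T τ D)
    (hl : T.card + 1 ≤ l) (u : U) : (D u).Nonempty := by
  obtain ⟨ρ', h1, h2⟩ := F.ext T (T ∪ {u}) τ subset_union_left
    ((card_union_le _ _).trans (by simpa using hl)) h.hT
  exact ⟨ρ' u, h.hC {u} ρ' h2 h1 u (mem_singleton_self u)⟩

theorem State.total {T : Finset U} {τ : U → Λ} {D : U → Finset Λ} (h : State F T τ D)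
    (hne : ∀ u, (D u).Nonempty) {X : U → Set Λ} {A C : Finset U} {ρ : U → Λ}
    (hρC : F.C (T ∪ C) ρ) (hρT : ∀ u ∈ T, ρ u = τ u)
    (hρX : ∀ u ∈ T ∪ supp D X, ρ u ∈ X u) (hsubC : supp D X ⊆ C) (hsub : C ⊆ A)
    (hcard : (T ∪ A).card ≤ l) :
    ∃ ρ' : U → Λ, F.C (T ∪ A) ρ' ∧ (∀ u ∈ T, ρ' u = τ u) ∧ (∀ u, ρ' u ∈ X u) ∧
      ∀ u ∈ C, ρ' u = ρ u := by
  obtain ⟨ρ', h1, h2⟩ := F.ext (T ∪ C) (T ∪ A) ρ (union_subset_union_right hsub) hcard hρC
  let ρ'' : U → Λ := fun u => if u ∈ T ∪ A then ρ' u else (hne u).choose
  have hag : ∀ u ∈ T ∪ A, ρ'' u = ρ' u := fun u hu => if_pos hu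
  have hC'' : F.C (T ∪ A) ρ'' := F.loc _ ρ' ρ'' hag h2
  have hτ'' : ∀ u ∈ T, ρ'' u = τ u := fun u hu => by
    rw [hag u (mem_union_left _ hu), h1 u (mem_union_left _ hu), hρT u hu]
  have hinD : ∀ u, ρ'' u ∈ D u := by
    intro u
    by_cases hu : u ∈ T
    · rw [h.hD u hu, hτ'' u hu]
      exact mem_singleton_self _
    · by_cases hu' : u ∈ A
      · exact h.hC A ρ'' hC'' hτ'' u hu'
      · have : u ∉ T ∪ A := by
          rw [mem_union]; tauto
        show (if u ∈ T ∪ A then ρ' u else (hne u).choose) ∈ D u
        rw [if_neg this]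
        exact (hne u).choose_spec
  refine ⟨ρ'', hC'', hτ'', fun u => ?_, fun u hu => ?_⟩
  · by_cases hu : u ∈ T ∪ supp D X
    · have hu' : u ∈ T ∪ C := union_subset_union_right hsubC hu
      rw [hag u (union_subset_union_right hsub hu'), h1 u hu']
      exact hρX u hu
    · have h3 : u ∉ supp D X := fun h4 => hu (mem_union_right _ h4)
      rw [mem_supp, not_not] at h3
      exact h3 _ (hinD u)
  · rw [hag u (mem_union_right _ (hsub hu)), h1 u (mem_union_right _ hu)]

/-- if all boxes that are alive are narrow then the proof does not derive the full set -/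
theorem narrow {k s W m : ℕ} {B : Fin s → U → Set Λ} {Z : Fin s → Set (U → Λ)}
    {N : Fin s → Finset U} (hB : Proof F k B Z) (hN : Small m Z N) {T : Finset U} {τ : U → Λ}
    {D : U → Finset Λ} (h : State F T τ D) (hl : T.card + (k + 1) * (W + m) + 2 ≤ l)
    (hW : ∀ i, (∀ u ∈ T, τ u ∈ B i u) → (supp D (B i)).card ≤ W) (i : Fin s) :
    ¬ ∃ ρ, F.C (T ∪ (supp D (B i) ∪ N i)) ρ ∧ (∀ u ∈ T, ρ u = τ u) ∧
      (∀ u ∈ T ∪ supp D (B i), ρ u ∈ B i u) ∧ ρ ∈ Z i := by
  have hne : ∀ u, (D u).Nonempty := fun u => h.nonempty (by omega) u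
  have hcard : ∀ j, (∀ u ∈ T, τ u ∈ B j u) → (supp D (B j) ∪ N j).card ≤ W + m := fun j hj =>
    (card_union_le _ _).trans (add_le_add (hW j hj) (hN j).1)
  refine WellFoundedLT.induction (motive := fun i : Fin s => ¬ ∃ ρ,
    F.C (T ∪ (supp D (B i) ∪ N i)) ρ ∧ (∀ u ∈ T, ρ u = τ u) ∧
    (∀ u ∈ T ∪ supp D (B i), ρ u ∈ B i u) ∧ ρ ∈ Z i) i ?_
  rintro i ih ⟨ρ, hρC, hρT, hρB, hρZ⟩
  have hal : ∀ u ∈ T, τ u ∈ B i u := fun u hu => by
    rw [← hρT u hu]
    exact hρB u (mem_union_left _ hu)
  have hWi := hcard i hal
  rcases hB i with ⟨S, hS, hax⟩ | ⟨J, hJ, hlt, hcov⟩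
  · obtain ⟨ρ', h1, h2, h3, h4⟩ := h.total hne hρC hρT hρB (A := (supp D (B i) ∪ N i) ∪ S)
      subset_union_left subset_union_left (by
        refine (card_union_le _ _).trans ?_
        have h1 := card_union_le (supp D (B i) ∪ N i) S
        have h2 : W + m ≤ (k + 1) * (W + m) := Nat.le_mul_of_pos_left _ (by omega)
        omega)
    exact hax ρ' (F.mono S _ ρ' (subset_union_right.trans subset_union_right) h1)
      ⟨h3, (hN i).2 ρ ρ' (fun u hu => (h4 u (mem_union_right _ hu)).symm) hρZ⟩
  · set J' := J.filter fun j => ∀ u ∈ T, τ u ∈ B j u with hJ'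
    obtain ⟨ρ', h1, h2, h3, h4⟩ := h.total hne hρC hρT hρB
      (A := (supp D (B i) ∪ N i) ∪ J'.biUnion fun j => supp D (B j) ∪ N j)
      subset_union_left subset_union_left (by
        refine (card_union_le _ _).trans ?_
        have h1 := card_union_le (supp D (B i) ∪ N i)
          (J'.biUnion fun j => supp D (B j) ∪ N j)
        have h2 : (J'.biUnion fun j => supp D (B j) ∪ N j).card ≤ J'.card * (W + m) :=
          card_biUnion_le_card_mul _ _ _ fun j hj => hcard j (mem_filter.1 hj).2
        have h3 : J'.card * (W + m) ≤ k * (W + m) :=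
          Nat.mul_le_mul_right _ ((card_filter_le _ _).trans hJ)
        have h4 : (k + 1) * (W + m) = k * (W + m) + (W + m) := by ring
        omega)
    obtain ⟨j, hj, hjB, hjZ⟩ := hcov ρ' h3
      ((hN i).2 ρ ρ' (fun u hu => (h4 u (mem_union_right _ hu)).symm) hρZ)
    have halj : ∀ u ∈ T, τ u ∈ B j u := fun u hu => by
      rw [← h2 u hu]
      exact hjB u
    refine ih j (hlt j hj) ⟨ρ', F.mono _ _ ρ' ?_ h1, h2, fun u _ => hjB u, hjZ⟩
    refine union_subset_union_right (Subset.trans ?_ subset_union_right)
    exact subset_biUnion_of_mem (fun j => supp D (B j) ∪ N j) (mem_filter.2 ⟨hj, halj⟩)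

/-- the boxes that are alive and wide -/
noncomputable def Fat {s : ℕ} (B : Fin s → U → Set Λ) (W : ℕ) (T : Finset U) (τ : U → Λ)
    (D : U → Finset Λ) : Finset (Fin s) :=
  univ.filter fun i => (∀ u ∈ T, τ u ∈ B i u) ∧ W < (supp D (B i)).card

/-- a label that kills many wide boxes -/
theorem exists_kill {s W : ℕ} (B : Fin s → U → Set Λ) (D : U → Finset Λ) (I : Finset (Fin s))
    (hI : ∀ i ∈ I, W < (supp D (B i)).card) (hne : I.Nonempty) :
    ∃ (u : U) (a : Λ), a ∈ D u ∧
      I.card * (W + 1) ≤ (I.filter fun i => a ∉ B i u).card * (Fintype.card U * Fintype.card Λ) := by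
  by_contra hcon
  push Not at hcon
  set P : Finset (U × Λ) := univ.filter fun x => x.2 ∈ D x.1 with hP
  have h1 : I.card * (W + 1) ≤ ∑ x ∈ P, (I.filter fun i => x.2 ∉ B i x.1).card := by
    have h2 : ∑ x ∈ P, (I.filter fun i => x.2 ∉ B i x.1).card =
        ∑ i ∈ I, (P.filter fun x => x.2 ∉ B i x.1).card := by
      simp only [card_filter]
      exact sum_comm
    rw [h2, ← smul_eq_mul, ← sum_const]
    refine sum_le_sum fun i hi => ?_
    refine (hI i hi).trans_le ?_
    have h3 : supp D (B i) ⊆ (P.filter fun x => x.2 ∉ B i x.1).image Prod.fst := by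
      intro u hu
      rw [mem_supp] at hu
      push Not at hu
      obtain ⟨a, ha, haB⟩ := hu
      exact mem_image.2 ⟨(u, a), mem_filter.2 ⟨mem_filter.2 ⟨mem_univ _, ha⟩, haB⟩, rfl⟩
    exact (card_le_card h3).trans card_image_le
  have hpos : 0 < I.card * (W + 1) := Nat.mul_pos hne.card_pos (by omega)
  have hPne : P.Nonempty := by
    by_contra h0
    rw [not_nonempty_iff_eq_empty] at h0
    rw [h0, sum_empty] at h1
    omega
  have h4 : (∑ x ∈ P, (I.filter fun i => x.2 ∉ B i x.1).card) *
      (Fintype.card U * Fintype.card Λ) < P.card * (I.card * (W + 1)) := by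
    rw [sum_mul, ← smul_eq_mul (P.card), ← sum_const]
    exact sum_lt_sum_of_nonempty hPne fun x hx => hcon x.1 x.2 (mem_filter.1 hx).2
  have h5 : P.card ≤ Fintype.card U * Fintype.card Λ := by
    rw [← Fintype.card_prod]
    exact card_le_univ _
  have h6 : P.card * (I.card * (W + 1)) ≤ (Fintype.card U * Fintype.card Λ) *
      ∑ x ∈ P, (I.filter fun i => x.2 ∉ B i x.1).card := Nat.mul_le_mul h5 h1
  rw [mul_comm (Fintype.card U * Fintype.card Λ)] at h6
  omega

/-- the induction of the adversary argument -/
theorem descent {k s W t0 m' : ℕ} {B : Fin s → U → Set Λ} {Z : Fin s → Set (U → Λ)}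
    {N : Fin s → Finset U} (hB : Proof F k B Z) (hN : Small m' Z N)
    (hfull : ∃ i, (∀ u, B i u = Set.univ) ∧ Z i = Set.univ)
    (hl : t0 + (k + 1) * (W + m') + 2 ≤ l) {q c : ℝ}
    (hq1 : q ≤ 1) (hq : q * (Fintype.card U * Fintype.card Λ) ≤ W + 1)
    (hs : c * (1 - q) ^ t0 < 1) :
    ∀ (m : ℕ) (T : Finset U) (τ : U → Λ) (D : U → Finset Λ), State F T τ D →
      (∑ u, (D u).card) + (Fintype.card U - T.card) ≤ m →
      ((Fat B W T τ D).card : ℝ) ≤ c * (1 - q) ^ T.card → T.card ≤ t0 → False := by
  intro m
  induction m using Nat.strong_induction_on with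
  | _ m ih =>
  intro T τ D h hm hF hT
  rcases (Fat B W T τ D).eq_empty_or_nonempty with h0 | h0
  · -- no wide boxes
    obtain ⟨i, hi, hiZ⟩ := hfull
    have hs0 : supp D (B i) = ∅ := by
      rw [eq_empty_iff_forall_notMem]
      intro u hu
      rw [mem_supp] at hu
      exact hu fun a _ => by rw [hi]; trivial
    obtain ⟨ρ, hρ1, hρ2⟩ := F.ext T (T ∪ (supp D (B i) ∪ N i)) τ subset_union_left (by
      rw [hs0, empty_union]
      have h1 := card_union_le T (N i)
      have h2 := (hN i).1
      have h3 : W + m' ≤ (k + 1) * (W + m') := Nat.le_mul_of_pos_left _ (by omega)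
      omega) h.hT
    refine narrow hB hN h (W := W) (by omega) ?_ i ⟨ρ, hρ2, hρ1, fun u _ => ?_, ?_⟩
    · intro j hj
      by_contra hcon
      have : j ∈ Fat B W T τ D := mem_filter.2 ⟨mem_univ _, hj, not_le.1 hcon⟩
      rw [h0] at this
      exact absurd this (notMem_empty _)
    · rw [hi]; trivial
    · rw [hiZ]; trivial
  · have h1 : (1 : ℝ) ≤ c * (1 - q) ^ T.card := by
      refine le_trans ?_ hF
      exact_mod_cast h0.card_pos
    have hTt : T.card < t0 := by
      by_contra hcon
      have h2 : T.card = t0 := le_antisymm hT (not_lt.1 hcon)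
      rw [h2] at h1
      linarith
    obtain ⟨u, a, ha, hkill⟩ := exists_kill B D (Fat B W T τ D)
      (fun i hi => (mem_filter.1 hi).2.2) h0
    set K := (Fat B W T τ D).filter fun i => a ∉ B i u with hK
    have hKpos : K.Nonempty := by
      rw [← card_pos]
      rcases Nat.eq_zero_or_pos K.card with h2 | h2
      · rw [h2, zero_mul] at hkill
        have := Nat.mul_pos h0.card_pos (show 0 < W + 1 by omega)
        omega
      · exact h2
    have huT : u ∉ T := by
      intro hu
      obtain ⟨i, hi⟩ := hKpos
      have h2 := mem_filter.1 hi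
      have h3 := (mem_filter.1 h2.1).2.1 u hu
      rw [h.hD u hu, mem_singleton] at ha
      exact h2.2 (ha ▸ h3)
    have hTU : T.card < Fintype.card U := card_lt_univ_of_notMem huT
    by_cases hcase : F.C (insert u T) (Function.update τ u a)
    · -- fix the label of `u`
      have hst : State F (insert u T) (Function.update τ u a) (Function.update D u {a}) := by
        refine ⟨hcase, ?_, ?_⟩
        · intro x hx
          by_cases hxu : x = u
          · subst hxu
            rw [Function.update_self, Function.update_self]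
          · rw [Function.update_of_ne hxu, Function.update_of_ne hxu]
            exact h.hD x (mem_of_mem_insert_of_ne hx hxu)
        · intro S ρ hρ hρT x hx
          by_cases hxu : x = u
          · subst hxu
            rw [Function.update_self, hρT x (mem_insert_self _ _), Function.update_self]
            exact mem_singleton_self _
          · rw [Function.update_of_ne hxu]
            refine h.hC (insert u S) ρ ?_ ?_ x (mem_insert_of_mem hx)
            · rwa [union_insert, ← insert_union]
            · intro y hy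
              have hyu : y ≠ u := fun h' => huT (h' ▸ hy)
              rw [hρT y (mem_insert_of_mem hy), Function.update_of_ne hyu]
      have hDsub : ∀ x, Function.update D u {a} x ⊆ D x := by
        intro x
        by_cases hxu : x = u
        · subst hxu
          rw [Function.update_self]
          exact singleton_subset_iff.2 ha
        · rw [Function.update_of_ne hxu]
      have hsum : ∑ x, (Function.update D u {a} x).card ≤ ∑ x, (D x).card :=
        sum_le_sum fun x _ => card_le_card (hDsub x)
      have hFsub : Fat B W (insert u T) (Function.update τ u a) (Function.update D u {a}) ⊆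
          Fat B W T τ D \ K := by
        intro i hi
        have h2 := (mem_filter.1 hi).2
        have h3 : a ∈ B i u := by
          have := h2.1 u (mem_insert_self _ _)
          rwa [Function.update_self] at this
        rw [mem_sdiff]
        refine ⟨mem_filter.2 ⟨mem_univ _, ?_, h2.2.trans_le (card_le_card ?_)⟩, ?_⟩
        · intro x hx
          have hxu : x ≠ u := fun h' => huT (h' ▸ hx)
          have := h2.1 x (mem_insert_of_mem hx)
          rwa [Function.update_of_ne hxu] at this
        · intro x hx
          rw [mem_supp] at hx ⊢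
          exact fun h' => hx fun b hb => h' b (hDsub x hb)
        · intro h'
          exact (mem_filter.1 h').2 h3
      have hcardF : ((Fat B W (insert u T) (Function.update τ u a)
          (Function.update D u {a})).card : ℝ) ≤ c * (1 - q) ^ (insert u T).card := by
        have h2 := card_le_card hFsub
        rw [card_sdiff_of_subset (filter_subset _ _)] at h2
        have hKle : K.card ≤ (Fat B W T τ D).card := card_le_card (filter_subset _ _)
        have h3 : ((Fat B W (insert u T) (Function.update τ u a)
            (Function.update D u {a})).card : ℝ) ≤ (Fat B W T τ D).card - K.card := by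
          rw [← Nat.cast_sub hKle]
          exact_mod_cast h2
        have h4 : q * (Fat B W T τ D).card ≤ K.card := by
          have hUΛ : 0 < Fintype.card U * Fintype.card Λ := by
            rcases Nat.eq_zero_or_pos (Fintype.card U * Fintype.card Λ) with h' | h'
            · rw [h', mul_zero] at hkill
              have := Nat.mul_pos h0.card_pos (show 0 < W + 1 by omega)
              omega
            · exact h'
          have h5 : ((Fat B W T τ D).card : ℝ) * (W + 1) ≤
              K.card * (Fintype.card U * Fintype.card Λ) := by exact_mod_cast hkill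
          have h6 : (0 : ℝ) < Fintype.card U * Fintype.card Λ := by exact_mod_cast hUΛ
          refine le_of_mul_le_mul_right (le_trans ?_ h5) h6
          calc q * ((Fat B W T τ D).card : ℝ) * (Fintype.card U * Fintype.card Λ)
              = (Fat B W T τ D).card * (q * (Fintype.card U * Fintype.card Λ)) := by ring
            _ ≤ _ := mul_le_mul_of_nonneg_left hq (Nat.cast_nonneg _)
        rw [card_insert_of_notMem huT, pow_succ]
        calc _ ≤ (1 - q) * ((Fat B W T τ D).card : ℝ) := by linarith
          _ ≤ (1 - q) * (c * (1 - q) ^ T.card) :=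
              mul_le_mul_of_nonneg_left hF (by linarith)
          _ = _ := by ring
      refine ih (∑ x, (Function.update D u {a} x).card + (Fintype.card U - (insert u T).card))
        ?_ _ _ _ hst le_rfl hcardF ?_
      · rw [card_insert_of_notMem huT]
        omega
      · rw [card_insert_of_notMem huT]
        omega
    · -- forbid the label
      have hst : State F T τ (Function.update D u ((D u).erase a)) := by
        refine ⟨h.hT, ?_, ?_⟩
        · intro x hx
          have hxu : x ≠ u := fun h' => huT (h' ▸ hx)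
          rw [Function.update_of_ne hxu]
          exact h.hD x hx
        · intro S ρ hρ hρT x hx
          by_cases hxu : x = u
          · subst hxu
            rw [Function.update_self, mem_erase]
            refine ⟨?_, h.hC S ρ hρ hρT x hx⟩
            intro hρa
            apply hcase
            refine F.loc _ ρ _ ?_ (F.mono _ _ ρ ?_ hρ)
            · intro y hy
              by_cases hyx : y = x
              · subst hyx
                rw [Function.update_self, hρa]
              · rw [Function.update_of_ne hyx]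
                exact (hρT y (mem_of_mem_insert_of_ne hy hyx)).symm
            · exact insert_subset (mem_union_right _ hx) subset_union_left
          · rw [Function.update_of_ne hxu]
            exact h.hC S ρ hρ hρT x hx
      have hDsub : ∀ x, Function.update D u ((D u).erase a) x ⊆ D x := by
        intro x
        by_cases hxu : x = u
        · subst hxu
          rw [Function.update_self]
          exact erase_subset _ _
        · rw [Function.update_of_ne hxu]
      have hsum : ∑ x, (Function.update D u ((D u).erase a) x).card < ∑ x, (D x).card := by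
        refine sum_lt_sum (fun x _ => card_le_card (hDsub x)) ⟨u, mem_univ _, ?_⟩
        rw [Function.update_self]
        exact card_erase_lt_of_mem ha
      have hcardF : ((Fat B W T τ (Function.update D u ((D u).erase a))).card : ℝ) ≤
          c * (1 - q) ^ T.card := by
        refine le_trans ?_ hF
        have : Fat B W T τ (Function.update D u ((D u).erase a)) ⊆ Fat B W T τ D := by
          intro i hi
          have h2 := (mem_filter.1 hi).2
          refine mem_filter.2 ⟨mem_univ _, h2.1, h2.2.trans_le (card_le_card ?_)⟩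
          intro x hx
          rw [mem_supp] at hx ⊢
          exact fun h' => hx fun b hb => h' b (hDsub x hb)
        exact_mod_cast card_le_card this
      exact ih (∑ x, (Function.update D u ((D u).erase a) x).card + (Fintype.card U - T.card))
        (by omega) _ _ _ hst le_rfl hcardF hT

/-- the initial state -/
theorem State.init (τ : U → Λ) : State F ∅ τ fun _ => univ :=
  ⟨F.empty τ, fun u hu => absurd hu (notMem_empty u), fun _ _ _ _ _ _ => mem_univ _⟩

/-- there are many lines with a wide box -/
theorem box_size [Nonempty Λ] {k s W m t0 : ℕ} {B : Fin s → U → Set Λ} {Z : Fin s → Set (U → Λ)}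
    {N : Fin s → Finset U} (hB : Proof F k B Z) (hN : Small m Z N)
    (hfull : ∃ i, (∀ u, B i u = Set.univ) ∧ Z i = Set.univ)
    (hl : t0 + (k + 1) * (W + m) + 2 ≤ l)
    (hW : W ≤ Fintype.card U * Fintype.card Λ) :
    Real.exp ((W : ℝ) * t0 / (Fintype.card U * Fintype.card Λ)) ≤
      (univ.filter fun i => W < (supp (fun _ => univ) (B i)).card).card := by
  set c : ℝ := ((univ.filter fun i => W < (supp (fun _ => univ) (B i)).card).card : ℝ) with hc
  by_contra hcon
  push Not at hcon
  obtain ⟨q, hq⟩ : ∃ q : ℝ, q = (W : ℝ) / (Fintype.card U * Fintype.card Λ) := ⟨_, rfl⟩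
  have hN0 : (0 : ℝ) ≤ Fintype.card U * Fintype.card Λ := by positivity
  have hWr : (W : ℝ) ≤ Fintype.card U * Fintype.card Λ := by exact_mod_cast hW
  have hq0 : 0 ≤ q := by rw [hq]; positivity
  have hq1 : q ≤ 1 := by
    rw [hq]
    exact div_le_one_of_le₀ hWr hN0
  have hqW : q * (Fintype.card U * Fintype.card Λ) ≤ W + 1 := by
    rcases hN0.eq_or_lt with h0 | h0
    · rw [← h0, mul_zero]
      positivity
    · rw [hq, div_mul_cancel₀ _ h0.ne']
      linarith
  have hs : c * (1 - q) ^ t0 < 1 := by
    have h1 : (1 - q) ^ t0 ≤ Real.exp (-(q * t0)) := by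
      have h2 : 1 - q ≤ Real.exp (-q) := by
        have := Real.add_one_le_exp (-q)
        linarith
      calc (1 - q) ^ t0 ≤ Real.exp (-q) ^ t0 := pow_le_pow_left₀ (by linarith) h2 _
        _ = Real.exp (-(q * t0)) := by
            rw [← Real.exp_nat_mul]
            congr 1
            ring
    have h3 : (W : ℝ) * t0 / (Fintype.card U * Fintype.card Λ) = q * t0 := by
      rw [hq]; ring
    rw [h3] at hcon
    calc c * (1 - q) ^ t0 ≤ c * Real.exp (-(q * t0)) :=
          mul_le_mul_of_nonneg_left h1 (Nat.cast_nonneg _)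
      _ < Real.exp (q * t0) * Real.exp (-(q * t0)) :=
          mul_lt_mul_of_pos_right hcon (Real.exp_pos _)
      _ = 1 := by rw [← Real.exp_add]; simp
  obtain ⟨a⟩ := ‹Nonempty Λ›
  refine descent hB hN hfull hl hq1 hqW hs _ ∅ (fun _ => a) (fun _ => univ)
    (State.init _) le_rfl ?_ (Nat.zero_le _)
  rw [card_empty, pow_zero, mul_one, hc]
  have hsub : Fat B W ∅ (fun _ => a) (fun _ => univ) ⊆
      univ.filter fun i => W < (supp (fun _ => univ) (B i)).card := fun i hi =>
    mem_filter.2 ⟨mem_univ _, (mem_filter.1 hi).2.2⟩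
  exact_mod_cast card_le_card hsub

end Pool.Agent.Helper72.BX
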