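import Mathlib

/-! # Refutations of the claim that a labelling satisfies all edges of a game (helper72) -/

namespace Pool.Agent.Helper72.BX

/-- A refutation, with `s` lines and fan-in `k`, of the claim that some labelling satisfies all edges
`e` of the game with left ends `v e`, right ends `w e` and the constraints that `π e` maps the label
of `w e` to the label of `v e`. Labellings are pairs (labels of the left vertices, labels of the right
vertices). Line `i` is a set `X i` of labellings; it says that no labelling in `X i` satisfies all
edges. Either one edge is violated by all labellings in `X i`, or `X i` is contained in the union of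
at most `k` earlier sets. One of the sets contains all labellings. -/
structure Refutation {V W E A B : Type} (v : E → V) (w : E → W) (π : E → A → B) (k s : ℕ) where
  X : Fin s → Set ((V → B) × (W → A))
  step : ∀ i, (∃ e, ∀ z ∈ X i, π e (z.2 (w e)) ≠ z.1 (v e)) ∨
    ∃ J : Finset (Fin s), J.card ≤ k ∧ (∀ j ∈ J, j < i) ∧ ∀ z ∈ X i, ∃ j ∈ J, z ∈ X j
  last : ∃ i, X i = Set.univ

/-- `X` is a box: it consists of the labellings with the labels of all left vertices `x` in the set
`P x` and those of all right vertices `y` in the set `Q y`. -/
def IsBox {V W A B : Type} (X : Set ((V → B) × (W → A))) : Prop :=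
  ∃ (P : V → Set B) (Q : W → Set A), ∀ z, z ∈ X ↔ (∀ x, z.1 x ∈ P x) ∧ ∀ y, z.2 y ∈ Q y

/-- `X` is `m`-narrow: the labels of at most `m` vertices (the left vertices in `S` and the right
vertices in `T`) determine whether a labelling belongs to `X`. -/
def Narrow {V W A B : Type} (m : ℝ) (X : Set ((V → B) × (W → A))) : Prop :=
  ∃ (S : Finset V) (T : Finset W), (S.card : ℝ) + T.card ≤ m ∧
    ∀ z z', (∀ x ∈ S, z.1 x = z'.1 x) → (∀ y ∈ T, z.2 y = z'.2 y) → z ∈ X → z' ∈ X

/-- `X` is an `m`-box: the intersection of a box and an `m`-narrow set. (All boxes and all `m`-narrow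
sets are `m`-boxes.) -/
def NearBox {V W A B : Type} (m : ℝ) (X : Set ((V → B) × (W → A))) : Prop :=
  ∃ Y Z : Set ((V → B) × (W → A)), IsBox Y ∧ Narrow m Z ∧ X = Y ∩ Z

end Pool.Agent.Helper72.BX
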