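import Pool.Agent.H589R3.DT.Asm
import Pool.Agent.H589R3.DT.SH
import Pool.Agent.H589R3.DT.MX
import Pool.Agent.H589R3.DT.WD
import Pool.Agent.H589R3.DT.WI
import Pool.Agent.H589R3.DT.XT
import Pool.Agent.H589R3.DT.CL
import Pool.Agent.H589R3.DT.LO
import Pool.Agent.Helper72.BX.Box
import Pool.Agent.Helper72.BX.Graph
import Pool.Agent.Helper72.BX.Defs

/-! # Box proofs for d-to-1 games of small value (helper72) -/

open scoped Classical
open Finset

namespace Pool.Agent.Helper72.BX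

open H589DT

/-- from the systems of the starting files -/
noncomputable def ofLocal {U Λ : Type} {l : ℕ} (F : Local U Λ l) : Sys U Λ l where
  C S ρ := ∃ ρ', (∀ u ∈ S, ρ' u = ρ u) ∧ F.C S ρ'
  loc := by
    rintro S ρ ρ' h ⟨ρ'', h1, h2⟩
    exact ⟨ρ'', fun u hu => (h1 u hu).trans (h u hu).symm, h2⟩
  empty := by
    intro ρ
    obtain ⟨ρ', h⟩ := F.empty
    exact ⟨ρ', fun u hu => absurd hu (notMem_empty u), h⟩
  mono := by
    rintro S T ρ hST ⟨ρ', h1, h2⟩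
    exact ⟨ρ', fun u hu => h1 u (hST hu), F.mono S T ρ' hST h2⟩
  ext := by
    rintro S T ρ hST hT ⟨ρ', h1, h2⟩
    obtain ⟨ρ'', h3, h4⟩ := F.ext S T ρ' hST hT h2
    exact ⟨ρ'', fun u hu => (h3 u hu).trans (h1 u hu), ρ'', fun _ _ => rfl, h4⟩

section transfer

variable {n D p d : ℕ} {φ : Fin n → Fin D → Fin n} {B : Finset (Fin n)} {sh : Fin n → Fin D → ZMod p}

/-- the map of the constraint on an edge -/
noncomputable def proj (B : Finset (Fin n)) (sh : Fin n → Fin D → ZMod p) (e1 : ZMod p ≃ Fin p)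
    (e2 : ZMod p × Fin d ≃ Fin (d * p)) (e : {e : Fin n × Fin D // e.1 ∉ B}) (a : Fin (d * p)) :
    Fin p :=
  e1 ((e2.symm a).1 - (e.1.2 : ℕ) * ((e2.symm a).2 : ℕ) + sh e.1.1 e.1.2)

theorem proj_card (e1 : ZMod p ≃ Fin p) (e2 : ZMod p × Fin d ≃ Fin (d * p))
    (e : {e : Fin n × Fin D // e.1 ∉ B}) (b : Fin p) :
    (univ.filter fun a => proj B sh e1 e2 e a = b).card = d := by
  have h1 : (univ.filter fun a => proj B sh e1 e2 e a = b).card =
      (univ : Finset (Fin d)).card := by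
    refine Finset.card_bij' (fun a _ => (e2.symm a).2)
      (fun j _ => e2 (e1.symm b - sh e.1.1 e.1.2 + (e.1.2 : ℕ) * (j : ℕ), j)) ?_ ?_ ?_ ?_
    · intro a _
      exact mem_univ _
    · intro j _
      rw [mem_filter]
      refine ⟨mem_univ _, ?_⟩
      unfold proj
      rw [Equiv.symm_apply_apply]
      have : e1.symm b - sh e.1.1 e.1.2 + (e.1.2 : ℕ) * (j : ℕ) - (e.1.2 : ℕ) * (j : ℕ) +
          sh e.1.1 e.1.2 = e1.symm b := by ring
      rw [this, Equiv.apply_symm_apply]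
    · intro a ha
      rw [mem_filter] at ha
      have h2 : e1.symm b = (e2.symm a).1 - (e.1.2 : ℕ) * ((e2.symm a).2 : ℕ) +
          sh e.1.1 e.1.2 := by
        rw [← ha.2]
        unfold proj
        rw [Equiv.symm_apply_apply]
      have h3 : ((e1.symm b - sh e.1.1 e.1.2 + (e.1.2 : ℕ) * ((e2.symm a).2 : ℕ),
          (e2.symm a).2) : ZMod p × Fin d) = e2.symm a := by
        rw [h2]
        refine Prod.ext ?_ rfl
        show (e2.symm a).1 - (e.1.2 : ℕ) * ((e2.symm a).2 : ℕ) + sh e.1.1 e.1.2 -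
          sh e.1.1 e.1.2 + (e.1.2 : ℕ) * ((e2.symm a).2 : ℕ) = (e2.symm a).1
        ring
      rw [h3, Equiv.apply_symm_apply]
    · intro j _
      rw [Equiv.symm_apply_apply]
  rw [h1, card_univ, Fintype.card_fin]

/-- the labelling of the game given by a labelling of the constraint graph -/
def lab (e1 : ZMod p ≃ Fin p) (e2 : ZMod p × Fin d ≃ Fin (d * p))
    (ρ : Fin n ⊕ Fin n → ZMod p × Fin d) : (Fin n → Fin p) × (Fin n → Fin (d * p)) :=
  (fun x => e1 (ρ (Sum.inl x)).1, fun y => e2 (ρ (Sum.inr y)))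

/-- the boxes of the constraint graph -/
def cbox (e1 : ZMod p ≃ Fin p) (e2 : ZMod p × Fin d ≃ Fin (d * p)) (P : Fin n → Set (Fin p))
    (Q : Fin n → Set (Fin (d * p))) : Fin n ⊕ Fin n → Set (ZMod p × Fin d) :=
  Sum.elim (fun x => {a | e1 a.1 ∈ P x}) fun y => {b | e2 b ∈ Q y}

theorem mem_cbox (e1 : ZMod p ≃ Fin p) (e2 : ZMod p × Fin d ≃ Fin (d * p))
    (P : Fin n → Set (Fin p)) (Q : Fin n → Set (Fin (d * p)))
    (ρ : Fin n ⊕ Fin n → ZMod p × Fin d) :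
    (∀ u, ρ u ∈ cbox e1 e2 P Q u) ↔
      (∀ x, (lab e1 e2 ρ).1 x ∈ P x) ∧ ∀ y, (lab e1 e2 ρ).2 y ∈ Q y := by
  constructor
  · intro h
    exact ⟨fun x => h (Sum.inl x), fun y => h (Sum.inr y)⟩
  · rintro ⟨h1, h2⟩ (x | y)
    · exact h1 x
    · exact h2 y

/-- an edge violated by all labellings of a set -/
theorem violated [NeZero p] {l : ℕ} (F : Local (Fin n ⊕ Fin n) (ZMod p × Fin d) l)
    (hF : ∀ S ρ, F.C S ρ → (gameGraph (d := d) φ B sh).SatOn S ρ)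
    (e1 : ZMod p ≃ Fin p) (e2 : ZMod p × Fin d ≃ Fin (d * p))
    (X : Set ((Fin n → Fin p) × (Fin n → Fin (d * p))))
    (e : {e : Fin n × Fin D // e.1 ∉ B})
    (he : ∀ z ∈ X, proj B sh e1 e2 e (z.2 e.1.1) ≠ z.1 (φ e.1.1 e.1.2)) :
    ∀ ρ, (ofLocal F).C {Sum.inl (φ e.1.1 e.1.2), Sum.inr e.1.1} ρ → lab e1 e2 ρ ∉ X := by
  rintro ρ ⟨ρ', h1, h2⟩ h3
  have h4 := hF _ ρ' h2 e (mem_ein.2 ⟨by simp [gameGraph], by simp [gameGraph]⟩)
  have h5 : (ρ' (Sum.inr e.1.1)).1 - (e.1.2 : ℕ) * ((ρ' (Sum.inr e.1.1)).2 : ℕ) +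
      sh e.1.1 e.1.2 = (ρ' (Sum.inl (φ e.1.1 e.1.2))).1 := h4
  rw [h1 (Sum.inr e.1.1) (by simp), h1 (Sum.inl (φ e.1.1 e.1.2)) (by simp)] at h5
  refine he _ h3 ?_
  unfold proj lab
  simp only [Equiv.symm_apply_apply]
  rw [h5]

/-- the set of the vertices in `S` and `T` -/
def both (S T : Finset (Fin n)) : Finset (Fin n ⊕ Fin n) :=
  S.map ⟨Sum.inl, Sum.inl_injective⟩ ∪ T.map ⟨Sum.inr, Sum.inr_injective⟩

theorem card_both (S T : Finset (Fin n)) : (both S T).card ≤ S.card + T.card := by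
  refine (card_union_le _ _).trans ?_
  rw [card_map, card_map]

/-- the parts of a line -/
theorem parts [NeZero p] (hd : 1 ≤ d) (e1 : ZMod p ≃ Fin p)
    (e2 : ZMod p × Fin d ≃ Fin (d * p)) {m : ℝ} {W : ℕ} (hm : m ≤ W)
    (X : Set ((Fin n → Fin p) × (Fin n → Fin (d * p)))) (hX : NearBox m X) :
    ∃ (B' : Fin n ⊕ Fin n → Set (ZMod p × Fin d)) (Z : Set (Fin n ⊕ Fin n → ZMod p × Fin d))
      (N : Finset (Fin n ⊕ Fin n)),
      (∀ ρ, ((∀ u, ρ u ∈ B' u) ∧ ρ ∈ Z) ↔ lab e1 e2 ρ ∈ X) ∧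
      (N.card ≤ W ∧ ∀ ρ ρ', (∀ u ∈ N, ρ u = ρ' u) → ρ ∈ Z → ρ' ∈ Z) ∧
      (Narrow m X → ∀ u, B' u = Set.univ) ∧
      (X = Set.univ → (∀ u, B' u = Set.univ) ∧ Z = Set.univ) := by
  have key : ∀ Z : Set ((Fin n → Fin p) × (Fin n → Fin (d * p))), Narrow m Z →
      ∃ N : Finset (Fin n ⊕ Fin n), N.card ≤ W ∧ ∀ ρ ρ' : Fin n ⊕ Fin n → ZMod p × Fin d,
        (∀ u ∈ N, ρ u = ρ' u) → lab e1 e2 ρ ∈ Z → lab e1 e2 ρ' ∈ Z := by
    rintro Z ⟨S, T, hST, hdep⟩
    refine ⟨both S T, ?_, fun ρ ρ' h hρ => hdep _ _ ?_ ?_ hρ⟩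
    · have h1 : ((both S T).card : ℝ) ≤ W := by
        have h2 : ((both S T).card : ℝ) ≤ S.card + T.card := by exact_mod_cast card_both S T
        linarith
      exact_mod_cast h1
    · intro x hx
      show e1 (ρ (Sum.inl x)).1 = e1 (ρ' (Sum.inl x)).1
      rw [h (Sum.inl x) (mem_union_left _ (mem_map.2 ⟨x, hx, rfl⟩))]
    · intro y hy
      show e2 (ρ (Sum.inr y)) = e2 (ρ' (Sum.inr y))
      rw [h (Sum.inr y) (mem_union_right _ (mem_map.2 ⟨y, hy, rfl⟩))]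
  by_cases hnar : Narrow m X
  · obtain ⟨N, hN1, hN2⟩ := key X hnar
    refine ⟨fun _ => Set.univ, {ρ | lab e1 e2 ρ ∈ X}, N, fun ρ => ⟨fun h => h.2, fun h =>
      ⟨fun _ => trivial, h⟩⟩, ⟨hN1, hN2⟩, fun _ _ => rfl, fun h => ⟨fun _ => rfl, ?_⟩⟩
    rw [Set.eq_univ_iff_forall]
    intro ρ
    show lab e1 e2 ρ ∈ X
    rw [h]
    trivial
  · obtain ⟨Y, Z, ⟨P, Q, hPQ⟩, hZ, hXYZ⟩ := hX
    obtain ⟨N, hN1, hN2⟩ := key Z hZ
    refine ⟨cbox e1 e2 P Q, {ρ | lab e1 e2 ρ ∈ Z}, N, fun ρ => ?_, ⟨hN1, hN2⟩,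
      fun h => absurd h hnar, fun h => ?_⟩
    · rw [mem_cbox, ← hPQ, hXYZ]
      rfl
    · have hY : ∀ z, z ∈ Y := fun z => by
        have : z ∈ Y ∩ Z := by rw [← hXYZ, h]; trivial
        exact this.1
      have hZ' : ∀ z, z ∈ Z := fun z => by
        have : z ∈ Y ∩ Z := by rw [← hXYZ, h]; trivial
        exact this.2
      refine ⟨?_, ?_⟩
      · rintro (x | y)
        · rw [Set.eq_univ_iff_forall]
          intro a
          exact ((hPQ (fun _ => e1 a.1, fun _ => e2 (0, ⟨0, hd⟩))).1 (hY _)).1 x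
        · rw [Set.eq_univ_iff_forall]
          intro b
          exact ((hPQ (fun _ => e1 0, fun _ => e2 b)).1 (hY _)).2 y
      · rw [Set.eq_univ_iff_forall]
        intro ρ
        exact hZ' _

/-- a refutation gives a proof for the constraint graph -/
theorem to_proof [NeZero p] {l k s : ℕ} (F : Local (Fin n ⊕ Fin n) (ZMod p × Fin d) l)
    (hF : ∀ S ρ, F.C S ρ → (gameGraph (d := d) φ B sh).SatOn S ρ)
    (e1 : ZMod p ≃ Fin p) (e2 : ZMod p × Fin d ≃ Fin (d * p))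
    (R : Refutation (fun e : {e : Fin n × Fin D // e.1 ∉ B} => φ e.1.1 e.1.2)
      (fun e => e.1.1) (proj B sh e1 e2) k s)
    (B' : Fin s → Fin n ⊕ Fin n → Set (ZMod p × Fin d))
    (Z : Fin s → Set (Fin n ⊕ Fin n → ZMod p × Fin d))
    (hBZ : ∀ i ρ, ((∀ u, ρ u ∈ B' i u) ∧ ρ ∈ Z i) ↔ lab e1 e2 ρ ∈ R.X i) :
    Proof (ofLocal F) k B' Z := by
  intro i
  rcases R.step i with ⟨e, he⟩ | ⟨J, hJ, hlt, hcov⟩
  · left
    refine ⟨{Sum.inl (φ e.1.1 e.1.2), Sum.inr e.1.1}, card_le_two, ?_⟩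
    intro ρ hρ h3
    exact violated F hF e1 e2 (R.X i) e he ρ hρ ((hBZ i ρ).1 h3)
  · right
    refine ⟨J, hJ, hlt, fun ρ hρ hρZ => ?_⟩
    obtain ⟨j, hj, hjB⟩ := hcov (lab e1 e2 ρ) ((hBZ i ρ).1 ⟨hρ, hρZ⟩)
    exact ⟨j, hj, (hBZ j ρ).2 hjB⟩

/-- the number of wide lines -/
theorem wide_lines [NeZero p] [NeZero d] {l k s W t0 : ℕ} {m : ℝ}
    (F : Local (Fin n ⊕ Fin n) (ZMod p × Fin d) l)
    (hF : ∀ S ρ, F.C S ρ → (gameGraph (d := d) φ B sh).SatOn S ρ)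
    (e1 : ZMod p ≃ Fin p) (e2 : ZMod p × Fin d ≃ Fin (d * p))
    (R : Refutation (fun e : {e : Fin n × Fin D // e.1 ∉ B} => φ e.1.1 e.1.2)
      (fun e => e.1.1) (proj B sh e1 e2) k s) (hR : ∀ i, NearBox m (R.X i)) (hm : m ≤ W)
    (hl : t0 + (k + 1) * (W + W) + 2 ≤ l)
    (hW : W ≤ Fintype.card (Fin n ⊕ Fin n) * Fintype.card (ZMod p × Fin d)) :
    Real.exp ((W : ℝ) * t0 /
      (Fintype.card (Fin n ⊕ Fin n) * Fintype.card (ZMod p × Fin d))) ≤
      Nat.card {i // ¬ Narrow m (R.X i)} := by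
  have hd : 1 ≤ d := Nat.one_le_iff_ne_zero.2 (NeZero.ne d)
  choose B' Z N h1 h2 h3 h4 using fun i => parts hd e1 e2 hm (R.X i) (hR i)
  have hP := to_proof F hF e1 e2 R B' Z h1
  obtain ⟨i0, hi0⟩ := R.last
  refine (box_size (N := N) hP h2 ⟨i0, h4 i0 hi0⟩ hl hW).trans ?_
  rw [Nat.card_eq_fintype_card, Fintype.card_subtype]
  refine Nat.cast_le.2 (card_le_card fun i hi => ?_)
  rw [mem_filter] at hi ⊢
  refine ⟨mem_univ _, fun hnar => ?_⟩
  have h5 : supp (fun _ => univ) (B' i) = ∅ := by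
    rw [eq_empty_iff_forall_notMem]
    intro u hu
    rw [mem_supp] at hu
    exact hu fun a _ => by rw [h3 i hnar]; trivial
  have h6 := hi.2
  rw [h5, card_empty] at h6
  omega

end transfer

/-- the numerical part -/
theorem numbers {n l c0 q k : ℕ} (hc0 : 1 ≤ c0) (hq : 1 ≤ q) (hk : 1 ≤ k) (hl : l = n / c0)
    (hn : 16 * c0 ≤ n) (hkn : (k : ℝ) ≤ 1 / (4096 * c0 ^ 2 * q) * n) :
    ∃ W t0 : ℕ, t0 + (k + 1) * (W + W) + 2 ≤ l ∧ W ≤ 2 * n * q ∧
      (1 / (4096 * c0 ^ 2 * q) * n / k : ℝ) ≤ W ∧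
      (1 / (4096 * c0 ^ 2 * q) * n / k : ℝ) ≤ (W : ℝ) * t0 / ((2 * n : ℕ) * (q : ℕ)) := by
  have hl16 : 16 ≤ l := by
    rw [hl, Nat.le_div_iff_mul_le (by omega)]
    exact hn
  have hl1 : n < c0 * (l + 1) := by
    rw [hl]
    exact Nat.lt_mul_div_succ n (by omega)
  have hl2 : c0 * l ≤ n := by
    rw [hl]
    exact Nat.mul_div_le n c0
  have hn1 : 1 ≤ n := by
    have : 16 * 1 ≤ 16 * c0 := Nat.mul_le_mul_left _ hc0
    omega
  obtain ⟨W, hW⟩ : ∃ W, W = l / (16 * k) := ⟨_, rfl⟩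
  obtain ⟨t0, ht0⟩ : ∃ t0, t0 = l / 4 := ⟨_, rfl⟩
  have hW1 : 16 * k * W ≤ l := by rw [hW]; exact Nat.mul_div_le l (16 * k)
  have hW2 : l < 16 * k * (W + 1) := by rw [hW]; exact Nat.lt_mul_div_succ l (by omega)
  have ht1 : 4 * t0 ≤ l := by omega
  have ht2 : l < 4 * (t0 + 1) := by omega
  have hkW : (k + 1) * (W + W) ≤ 4 * (k * W) := by nlinarith [Nat.zero_le W]
  have hkW2 : 16 * (k * W) ≤ l := by rw [← mul_assoc]; exact hW1
  have hc0r : (1 : ℝ) ≤ c0 := by exact_mod_cast hc0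
  have hqr : (1 : ℝ) ≤ q := by exact_mod_cast hq
  have hkr : (1 : ℝ) ≤ k := by exact_mod_cast hk
  have hnr : (1 : ℝ) ≤ n := by exact_mod_cast hn1
  have hlr : (n : ℝ) ≤ 2 * c0 * l := by
    have h1 : (n : ℝ) < c0 * (l + 1) := by exact_mod_cast hl1
    have h2 : (16 : ℝ) ≤ l := by exact_mod_cast hl16
    nlinarith
  have hW2r : (l : ℝ) < 16 * k * (W + 1) := by exact_mod_cast hW2
  have hc2 : (c0 : ℝ) ≤ c0 ^ 2 := by nlinarith
  have hkn' : (4096 * c0 ^ 2 * q * k : ℝ) ≤ n := by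
    have h1 : (4096 * c0 ^ 2 * q * k : ℝ) ≤
        4096 * c0 ^ 2 * q * (1 / (4096 * c0 ^ 2 * q) * n) :=
      mul_le_mul_of_nonneg_left hkn (by positivity)
    have h2 : (4096 * c0 ^ 2 * q * (1 / (4096 * c0 ^ 2 * q) * n) : ℝ) = n := by
      field_simp
    linarith
  have hkc : (4096 * c0 * k : ℝ) ≤ n := by
    refine le_trans ?_ hkn'
    calc (4096 * c0 * k : ℝ) = 4096 * c0 * 1 * k := by ring
      _ ≤ 4096 * c0 ^ 2 * q * k := by gcongr
  -- `W` is large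
  have hWbig : (1 : ℝ) ≤ W := by
    have h1 : (n : ℝ) ≤ 2 * c0 * (16 * k * (W + 1)) :=
      hlr.trans (mul_le_mul_of_nonneg_left hW2r.le (by positivity))
    have h2 : (4096 * c0 * k : ℝ) ≤ (32 * (W + 1)) * (c0 * k) := by nlinarith
    have h3 : (0 : ℝ) < c0 * k := by positivity
    have h4 : (4096 : ℝ) ≤ 32 * (W + 1) := by
      refine le_of_mul_le_mul_right ?_ h3
      linarith
    linarith
  have hlW : (l : ℝ) ≤ 32 * k * W := by
    have : (k : ℝ) * (W + 1) ≤ k * (2 * W) := mul_le_mul_of_nonneg_left (by linarith) (by positivity)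
    nlinarith
  refine ⟨W, t0, by omega, ?_, ?_, ?_⟩
  · have h1 : W ≤ l := by
      rw [hW]; exact Nat.div_le_self _ _
    have h2 : l ≤ n := by rw [hl]; exact Nat.div_le_self _ _
    calc W ≤ n := h1.trans h2
      _ ≤ 2 * n * q := by nlinarith
  · rw [show (1 / (4096 * c0 ^ 2 * q) * n / k : ℝ) = n / (4096 * c0 ^ 2 * q * k) by field_simp]
    rw [div_le_iff₀ (by positivity)]
    calc (n : ℝ) ≤ 2 * c0 * (32 * k * W) :=
          hlr.trans (mul_le_mul_of_nonneg_left hlW (by positivity))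
      _ = W * (64 * c0 * 1 * k) := by ring
      _ ≤ W * (4096 * c0 ^ 2 * q * k) := by
          refine mul_le_mul_of_nonneg_left ?_ (by positivity)
          gcongr
          norm_num
  · have htr : (l : ℝ) < 4 * (t0 + 1) := by exact_mod_cast ht2
    have hl16r : (16 : ℝ) ≤ l := by exact_mod_cast hl16
    have h2 : (l : ℝ) ≤ 8 * t0 := by linarith
    rw [show (1 / (4096 * c0 ^ 2 * q) * n / k : ℝ) = n / (4096 * c0 ^ 2 * q * k) by field_simp]
    push_cast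
    rw [div_le_div_iff₀ (by positivity) (by positivity)]
    have h3 : (n : ℝ) * n ≤ (2 * c0 * l) * (2 * c0 * l) :=
      mul_le_mul hlr hlr (by positivity) (by positivity)
    have h4 : (l : ℝ) * l ≤ (32 * k * W) * (8 * t0) :=
      mul_le_mul hlW h2 (by positivity) (by positivity)
    calc (n : ℝ) * (2 * n * q) = 2 * q * (n * n) := by ring
      _ ≤ 2 * q * ((2 * c0 * l) * (2 * c0 * l)) := mul_le_mul_of_nonneg_left h3 (by positivity)
      _ = 8 * q * c0 ^ 2 * (l * l) := by ring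
      _ ≤ 8 * q * c0 ^ 2 * ((32 * k * W) * (8 * t0)) :=
          mul_le_mul_of_nonneg_left h4 (by positivity)
      _ = W * t0 * (2048 * c0 ^ 2 * q * k) := by ring
      _ ≤ W * t0 * (4096 * c0 ^ 2 * q * k) := by
          refine mul_le_mul_of_nonneg_left ?_ (by positivity)
          gcongr
          norm_num

/-- d-to-1 games of small value without short refutations -/
theorem main (d : ℕ) (hd : 2 ≤ d) (ε : ℝ) (hε : 0 < ε) :
    ∃ (R Δ : ℕ) (γ : ℝ) (n0 : ℕ), 1 ≤ R ∧ 0 < γ ∧ ∀ n : ℕ, n0 ≤ n →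
      ∃ (E : Type) (_ : Fintype E) (v w : E → Fin n) (π : E → Fin (d * R) → Fin R),
        n ≤ 2 * Fintype.card E ∧ Fintype.card E ≤ Δ * n ∧
        (∀ e b, (univ.filter fun a => π e a = b).card = d) ∧
        (∀ (L : Fin n → Fin R) (M : Fin n → Fin (d * R)),
          ((univ.filter fun e => π e (M (w e)) = L (v e)).card : ℝ) < ε * Fintype.card E) ∧
        ∀ (k s : ℕ), 1 ≤ k → k ≤ γ * n → ∀ X : Refutation v w π k s,
          (∀ i, NearBox (γ * n / k) (X.X i)) →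
            Real.exp (γ * n / k) ≤ Nat.card {i // ¬ Narrow (γ * n / k) (X.X i)} := by
  obtain ⟨p, D, hp, hkp, hDp, hD⟩ := choice_p d (Nat.ceil (8 / ε)) hd
  set k := Nat.ceil (8 / ε) with hk
  have hp1 : 1 ≤ p := hp.one_lt.le
  have : NeZero p := ⟨hp.pos.ne'⟩
  have : NeZero d := ⟨by omega⟩
  set r := 2 * (d * p) + 4 with hr
  set h := 3 * r with hh
  have hD1 : 1 ≤ D := by
    by_contra h0
    have : D = 0 := by omega
    rw [this, pow_zero] at hD
    have : 1 ≤ d * p ^ 2 := Nat.mul_pos (by omega) (pow_pos hp.pos 2)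
    omega
  obtain ⟨n0, hn0⟩ := exists_graph D (2 * h) r (by omega)
  set c0 := (8 * (6 * 2 ^ D)) ^ (2 * h) * (4 * (h + 1)) with hc0
  have hc0pos : 1 ≤ c0 := by
    rw [hc0]
    exact Nat.mul_pos (Nat.pow_pos (by positivity)) (by omega)
  have hdp : 1 ≤ d * p := Nat.mul_pos (by omega) hp.pos
  refine ⟨p, D, 1 / (4096 * c0 ^ 2 * (d * p : ℕ)), n0 + 16 * c0 + 1, hp1, by positivity,
    fun n hn => ?_⟩
  obtain ⟨φ, B, hB, hsp, hgi⟩ := hn0 n (by omega)
  -- the number of edges and `K`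
  have hEE := card_EE (D := D) B
  have hE2 : n * D ≤ 2 * Fintype.card (EE D B) := by
    rw [hEE]
    calc n * D ≤ (2 * (n - B.card)) * D := Nat.mul_le_mul_right _ (by omega)
      _ = _ := by ring
  have hE1 : Fintype.card (EE D B) ≤ D * n := by
    rw [hEE, mul_comm]
    exact Nat.mul_le_mul_left _ (Nat.sub_le _ _)
  set EC := Fintype.card (EE D B) with hEC
  set K := Nat.ceil (ε * EC / 2) with hK
  have hn1 : n ≠ 0 := by omega
  have hECpos : 0 < EC := by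
    have : 1 ≤ n * D := Nat.mul_pos (by omega) hD1
    omega
  have hKlt : (K : ℝ) - 1 < ε * EC / 2 := by
    have h1 : (K : ℝ) < ε * EC / 2 + 1 := Nat.ceil_lt_add_one (by positivity)
    linarith
  have hpK : (d * p ^ 2) ^ n * 2 ^ (D * n) < p ^ K := by
    have h1 : 2 * (D * n) ≤ k * K := by
      have h2 : (8 / ε : ℝ) ≤ k := Nat.le_ceil _
      have h3 : ε * EC / 2 ≤ (K : ℝ) := Nat.le_ceil _
      have h4 : (4 * EC : ℝ) ≤ k * K := by
        calc (4 * EC : ℝ) = (8 / ε) * (ε * EC / 2) := by field_simp; ring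
          _ ≤ k * K := mul_le_mul h2 h3 (by positivity) (by positivity)
      have h5 : (4 * EC : ℕ) ≤ k * K := by exact_mod_cast h4
      calc 2 * (D * n) = 2 * (n * D) := by ring
        _ ≤ 2 * (2 * EC) := Nat.mul_le_mul_left _ hE2
        _ = 4 * EC := by ring
        _ ≤ _ := h5
    calc (d * p ^ 2) ^ n * 2 ^ (D * n) < (2 ^ D) ^ n * 2 ^ (D * n) := by
          apply Nat.mul_lt_mul_of_pos_right _ (by positivity)
          exact Nat.pow_lt_pow_left hD hn1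
      _ = 2 ^ (2 * (D * n)) := by rw [← pow_mul, two_mul, pow_add]
      _ ≤ 2 ^ (k * K) := Nat.pow_le_pow_right (by norm_num) h1
      _ = (2 ^ k) ^ K := by rw [pow_mul]
      _ ≤ p ^ K := Nat.pow_le_pow_left hkp K
  obtain ⟨sh, hs⟩ := t_SH n D p d K hp1 φ B hpK
  -- local consistency
  obtain ⟨l, hl⟩ : ∃ l, l = n / c0 := ⟨_, rfl⟩
  set G := gameGraph (d := d) φ B sh with hG
  have hGgirth : G.Girth r := fun S hS hSr => lt_of_le_of_lt (ein_le φ B sh S) (hgi S hS hSr)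
  have hGsparse : G.Sparse (2 * h) (4 * (h + 1) * l) := by
    intro S hS
    refine (ein_le φ B sh S).trans (hsp S ?_)
    calc (8 * (6 * 2 ^ D)) ^ (2 * h) * S.card
        ≤ (8 * (6 * 2 ^ D)) ^ (2 * h) * (4 * (h + 1) * l) := Nat.mul_le_mul_left _ hS
      _ = c0 * l := by rw [hc0]; ring
      _ ≤ n := by rw [hl]; exact Nat.mul_div_le n c0
  obtain ⟨F, hF⟩ := t_LO (t_XT t_WD t_WI) t_CL _ _ _ G r h (4 * (h + 1) * l) l (by omega) le_rfl
    (gameGraph_surj (by omega) φ B sh) (t_MX n D p d hp hDp hd φ B sh) hGgirth hGsparse le_rfl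
  obtain ⟨e1⟩ : Nonempty (ZMod p ≃ Fin p) :=
    ⟨Fintype.equivFinOfCardEq (ZMod.card p)⟩
  have hcardΛ : Fintype.card (ZMod p × Fin d) = d * p := by
    rw [Fintype.card_prod, ZMod.card, Fintype.card_fin, mul_comm]
  obtain ⟨e2⟩ : Nonempty (ZMod p × Fin d ≃ Fin (d * p)) :=
    ⟨Fintype.equivFinOfCardEq hcardΛ⟩
  refine ⟨{e : Fin n × Fin D // e.1 ∉ B}, inferInstance, fun e => φ e.1.1 e.1.2, fun e => e.1.1,
    proj B sh e1 e2, ?_, hE1, fun e b => proj_card e1 e2 e b, ?_, ?_⟩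
  · exact le_trans (Nat.le_mul_of_pos_right n hD1) hE2
  · intro L M
    have h1 := hs (fun y => e2.symm (M y)) (fun x => e1.symm (L x))
    have h2 : (univ.filter fun e : {e : Fin n × Fin D // e.1 ∉ B} =>
        proj B sh e1 e2 e (M e.1.1) = L (φ e.1.1 e.1.2)).card ≤
        (univ.filter fun e : Fin n × Fin D => e.1 ∉ B ∧
          (e2.symm (M e.1)).1 - ((e.2 : ℕ) : ZMod p) * (((e2.symm (M e.1)).2 : ℕ) : ZMod p) +
            sh e.1 e.2 = e1.symm (L (φ e.1 e.2))).card := by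
      apply card_le_card_of_injOn Subtype.val
      · intro e he
        have h := (mem_filter.1 (mem_coe.1 he)).2
        refine mem_coe.2 (mem_filter.2 ⟨mem_univ _, e.2, ?_⟩)
        rw [← h]
        unfold proj
        rw [Equiv.symm_apply_apply]
      · exact Subtype.val_injective.injOn
    have h3 : ((univ.filter fun e : {e : Fin n × Fin D // e.1 ∉ B} =>
        proj B sh e1 e2 e (M e.1.1) = L (φ e.1.1 e.1.2)).card : ℝ) ≤ (K : ℝ) - 1 := by
      have h4 : (univ.filter fun e : {e : Fin n × Fin D // e.1 ∉ B} =>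
        proj B sh e1 e2 e (M e.1.1) = L (φ e.1.1 e.1.2)).card + 1 ≤ K := by omega
      have h5 : (((univ.filter fun e : {e : Fin n × Fin D // e.1 ∉ B} =>
        proj B sh e1 e2 e (M e.1.1) = L (φ e.1.1 e.1.2)).card + 1 : ℕ) : ℝ) ≤ K := by
        exact_mod_cast h4
      push_cast at h5
      linarith
    have hECr : (0 : ℝ) < EC := by exact_mod_cast hECpos
    calc _ ≤ (K : ℝ) - 1 := h3
      _ < ε * EC / 2 := hKlt
      _ ≤ ε * EC := by
          have : 0 < ε * EC := mul_pos hε hECr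
          linarith
  · intro k' s hk' hkn X hX
    obtain ⟨W, t0, hWt, hWn, hwid, hsize⟩ := numbers (n := n) (k := k') hc0pos hdp hk' hl (by omega)
      hkn
    have hcardU : Fintype.card (Fin n ⊕ Fin n) = 2 * n := by
      rw [Fintype.card_sum, Fintype.card_fin]; ring
    have h1 := wide_lines F hF e1 e2 X hX hwid hWt (by rw [hcardU, hcardΛ]; exact hWn)
    rw [hcardU, hcardΛ] at h1
    exact (Real.exp_le_exp.2 hsize).trans h1

end Pool.Agent.Helper72.BX
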